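import Mathlib
import Pool.Agent.H75.FT.Main

/-!
# A transverse circle that bounds no regular quasi-isometric embedding

`G = SL₂(ℝ) × SL₂(ℝ)`, `Θ = Δ`.  The flag manifold is `ℝP¹ × ℝP¹`, and the closure of the graph of
`sinh` in it is a transverse circle.  It is not the limit set of any `Δ`-uniformly regular
quasi-isometric embedding `Z → G/K` of any (quasi-)geodesic metric space `Z`.  The reason: both
coordinates of such a map are quasi-isometric embeddings of `Z` into the hyperbolic plane, so the
Gromov products in the two factors are linearly comparable, by stability of quasi-geodesics; but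
`sinh` distorts Gromov products exponentially.
-/

namespace Pool.Agent.Results.MP_02cffa_gt.NotFillable

open Pool.Agent.H75.FT
open scoped MatrixGroups OnePoint

/-- a matrix of determinant one given by its entries -/
def mk2 (a b c d : ℝ) (h : a * d - b * c = 1) : SL(2, ℝ) :=
  ⟨!![a, b; c, d], by rw [Matrix.det_fin_two_of]; exact h⟩

theorem mk2_infty (a b c d : ℝ) (h : a * d - b * c = 1) :
    (mk2 a b c d h : GL (Fin 2) ℝ) • (∞ : OnePoint ℝ) =
      if c = 0 then ∞ else ((a / c : ℝ) : OnePoint ℝ) := by
  have := OnePoint.smul_infty_eq_ite (mk2 a b c d h : GL (Fin 2) ℝ)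
  exact this

theorem mk2_zero (a b c d : ℝ) (h : a * d - b * c = 1) :
    (mk2 a b c d h : GL (Fin 2) ℝ) • ((0 : ℝ) : OnePoint ℝ) =
      if c * 0 + d = 0 then ∞ else (((a * 0 + b) / (c * 0 + d) : ℝ) : OnePoint ℝ) := by
  have := OnePoint.smul_some_eq_ite (g := (mk2 a b c d h : GL (Fin 2) ℝ)) (k := 0)
  exact this

theorem two_trans {x y : OnePoint ℝ} (h : x ≠ y) : ∃ g : SL(2, ℝ),
    x = (g : GL (Fin 2) ℝ) • (∞ : OnePoint ℝ) ∧
      y = (g : GL (Fin 2) ℝ) • (((0 : ℝ) : OnePoint ℝ)) := by
  cases x with
  | infty =>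
    cases y with
    | infty => exact absurd rfl h
    | coe b =>
      refine ⟨mk2 1 b 0 1 (by ring), ?_, ?_⟩
      · rw [mk2_infty]
        simp
      · rw [mk2_zero]
        simp
  | coe a =>
    cases y with
    | infty =>
      refine ⟨mk2 a (-1) 1 0 (by ring), ?_, ?_⟩
      · rw [mk2_infty]
        simp
      · rw [mk2_zero]
        simp
    | coe b =>
      have hab : a - b ≠ 0 := fun h0 => h (by rw [sub_eq_zero.1 h0])
      refine ⟨mk2 a (b * (a - b)⁻¹) 1 (a - b)⁻¹ (by field_simp), ?_, ?_⟩
      · rw [mk2_infty]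
        simp
      · rw [mk2_zero]
        simp [hab]

theorem transverse_of_ne {x y : Flag} (h1 : x.1 ≠ y.1) (h2 : x.2 ≠ y.2) : Transverse x y := by
  refine ⟨{q | q.1.1 ≠ q.2.1 ∧ q.1.2 ≠ q.2.2}, ?_, ⟨(base, (((0 : ℝ) : OnePoint ℝ),
    ((0 : ℝ) : OnePoint ℝ))), ?_⟩, h1, h2⟩
  · apply IsOpen.inter
    · exact isOpen_ne_fun (continuous_fst.comp continuous_fst) (continuous_fst.comp continuous_snd)
    · exact isOpen_ne_fun (continuous_snd.comp continuous_fst) (continuous_snd.comp continuous_snd)
  · ext q
    constructor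
    · rintro ⟨e1, e2⟩
      obtain ⟨g1, a1, b1⟩ := two_trans e1
      obtain ⟨g2, a2, b2⟩ := two_trans e2
      exact ⟨(g1, g2), Prod.ext (Prod.ext a1 a2) (Prod.ext b1 b2)⟩
    · rintro ⟨g, rfl⟩
      constructor
      · intro h0
        exact OnePoint.infty_ne_coe (0 : ℝ) (MulAction.injective _ h0)
      · intro h0
        exact OnePoint.infty_ne_coe (0 : ℝ) (MulAction.injective _ h0)

/-- the transverse circle: the closure of the graph of `sinh` in `ℝP¹ × ℝP¹` -/
def Circ : Set Flag := {x | x.2 = hsinh x.1}

/-- the circle is parametrised by its first coordinate -/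
noncomputable def circHomeo : Circ ≃ₜ OnePoint ℝ where
  toFun x := x.1.1
  invFun t := ⟨(t, hsinh t), rfl⟩
  left_inv := by
    rintro ⟨⟨a, b⟩, h⟩
    apply Subtype.ext
    exact Prod.ext rfl (Eq.symm h)
  right_inv _ := rfl
  continuous_toFun := continuous_fst.comp continuous_subtype_val
  continuous_invFun := by
    apply Continuous.subtype_mk
    exact continuous_id.prodMk hsinh.continuous

theorem circ_transverse : IsTransverseSphere Circ := by
  constructor
  · refine ⟨1, le_rfl, ⟨circHomeo.trans (onePointEquivSphereOfFinrankEq ?_)⟩⟩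
    simp
  · intro x hx y hy hxy
    have hx' : x.2 = hsinh x.1 := hx
    have hy' : y.2 = hsinh y.1 := hy
    have h1 : x.1 ≠ y.1 := by
      intro h
      apply hxy
      exact Prod.ext h (by rw [hx', hy', h])
    refine transverse_of_ne h1 ?_
    rw [hx', hy']
    exact fun h => h1 (hsinh.injective h)

/-- There is a transverse sphere `Λ` in the full flag manifold of `SL₂(ℝ) × SL₂(ℝ)` which is not
the limit set of any uniformly regular quasi-isometric embedding of any (quasi-)geodesic metric
space, in particular of any locally compact Gromov hyperbolic space. -/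
theorem result : ∃ Λ : Set Flag, IsTransverseSphere Λ ∧
    ∀ (Z : Type*) [MetricSpace Z], IsQuasiGeodesicSpace Z → ∀ f : Z → X, IsURQI f →
      limitSet f ≠ Λ := by
  refine ⟨Circ, circ_transverse, ?_⟩
  intro Z _ hZ f hf h
  refine no_filling hZ hf fun x => ?_
  rw [h]
  exact (hsinh_coe x).symm

end Pool.Agent.Results.MP_02cffa_gt.NotFillable
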